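import Pool.Agent.Lib.MP_2eeeac_ag.GD2
import Pool.Agent.Lib.MP_2eeeac_ag.Symb
import Pool.Agent.Lib.MP_2eeeac_ag.GG
import Pool.Agent.Lib.MP_2eeeac_ag.Iso.MFA

/-!
# The `m`-fold symbol on a product of elliptic curves and sums over even sign changes

`Msymb Q = ∑_S (-1)^|S| [Q with O at the places of S]` is the class of
`(Q_1 - O) × ⋯ × (Q_m - O)`.
-/

namespace AlbCH

open WeierstrassCurve WeierstrassCurve.Affine Finset

section abstract_part

variable {I : Type} [Fintype I] [DecidableEq I] {P : I → Type*} [∀ i, AddCommGroup (P i)]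
  {V : Type*} [AddCommGroup V] [Module ℚ V]

/-- the point with the coordinates in `S` negated -/
def negS (S : Finset I) (Q : ∀ i, P i) : ∀ i, P i := S.piecewise (-Q) Q

/-- the point with the coordinates in `S` replaced by `0` -/
def zeroS (S : Finset I) (Q : ∀ i, P i) : ∀ i, P i := S.piecewise 0 Q

omit [Fintype I] in
theorem zeroS_insert {i : I} {S : Finset I} (hi : i ∉ S) (Q : ∀ i, P i) :
    zeroS (insert i S) Q = zeroS S (Function.update Q i 0) := by
  funext l
  unfold zeroS
  by_cases hl : l ∈ S
  · rw [Finset.piecewise_eq_of_mem _ _ _ (Finset.mem_insert_of_mem hl),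
      Finset.piecewise_eq_of_mem _ _ _ hl]
  · by_cases hli : l = i
    · subst hli
      rw [Finset.piecewise_eq_of_mem _ _ _ (Finset.mem_insert_self _ _),
        Finset.piecewise_eq_of_notMem _ _ _ hl, Function.update_self]
      rfl
    · rw [Finset.piecewise_eq_of_notMem _ _ _ (by simp [hli, hl]),
        Finset.piecewise_eq_of_notMem _ _ _ hl, Function.update_of_ne hli]

omit [Fintype I] in
theorem negS_update {i : I} {S : Finset I} (hi : i ∉ S) (Q : ∀ i, P i) :
    Function.update (negS S Q) i 0 = negS S (Function.update Q i 0) := by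
  funext l
  unfold negS
  by_cases hli : l = i
  · subst hli
    rw [Function.update_self, Finset.piecewise_eq_of_notMem _ _ _ hi, Function.update_self]
  · rw [Function.update_of_ne hli]
    by_cases hl : l ∈ S
    · rw [Finset.piecewise_eq_of_mem _ _ _ hl, Finset.piecewise_eq_of_mem _ _ _ hl,
        Pi.neg_apply, Pi.neg_apply, Function.update_of_ne hli]
    · rw [Finset.piecewise_eq_of_notMem _ _ _ hl, Finset.piecewise_eq_of_notMem _ _ _ hl,
        Function.update_of_ne hli]

omit [Fintype I] in
theorem negS_insert {i : I} {S : Finset I} (hi : i ∉ S) (Q : ∀ i, P i) :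
    negS (insert i S) Q = Function.update (negS S Q) i (-(negS S Q) i) := by
  unfold negS
  rw [Finset.piecewise_insert, Finset.piecewise_eq_of_notMem _ _ _ hi]
  rfl

/-- the alternating sum -/
def altS (f : (∀ i, P i) → V) (T : Finset I) (Q : ∀ i, P i) : V :=
  ∑ S ∈ T.powerset, (-1 : ℤ) ^ S.card • f (zeroS S Q)

omit [Fintype I] [Module ℚ V] in
theorem altS_insert (f : (∀ i, P i) → V) {i : I} {T : Finset I} (hi : i ∉ T) (Q : ∀ i, P i) :
    altS f (insert i T) Q = altS f T Q - altS f T (Function.update Q i 0) := by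
  unfold altS
  rw [Finset.sum_powerset_insert hi, sub_eq_add_neg, ← Finset.sum_neg_distrib]
  congr 1
  refine Finset.sum_congr rfl fun S hS => ?_
  have hiS : i ∉ S := fun h => hi (Finset.mem_powerset.1 hS h)
  rw [zeroS_insert hiS, Finset.card_insert_of_notMem hiS, pow_succ, mul_neg_one, neg_smul]

omit [Module ℚ V] in
theorem altS_zero (f : (∀ i, P i) → V) {i : I} {Q : ∀ i, P i} (h : Q i = 0) :
    altS f Finset.univ Q = 0 := by
  have h1 : (Finset.univ : Finset I) = insert i (Finset.univ.erase i) :=
    (Finset.insert_erase (Finset.mem_univ i)).symm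
  have h2 : Function.update Q i 0 = Q := by
    rw [← h]; exact Function.update_eq_self i Q
  rw [h1, altS_insert f (Finset.notMem_erase i _), h2, sub_self]

omit [Fintype I] [Module ℚ V] in
theorem sum_all {f : (∀ i, P i) → V}
    (hN : ∀ (i : I) (Q : ∀ i, P i), f Q + f (Function.update Q i (-Q i))
      = 2 • f (Function.update Q i 0)) (T : Finset I) (Q : ∀ i, P i) :
    ∑ S ∈ T.powerset, f (negS S Q) = 2 ^ T.card • f (zeroS T Q) := by
  induction T using Finset.induction_on generalizing Q with
  | empty => simp [negS, zeroS]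
  | insert i T hi ih =>
    rw [Finset.sum_powerset_insert hi, ← Finset.sum_add_distrib]
    have h1 : ∀ S ∈ T.powerset, f (negS S Q) + f (negS (insert i S) Q)
        = 2 • f (negS S (Function.update Q i 0)) := by
      intro S hS
      have hiS : i ∉ S := fun h => hi (Finset.mem_powerset.1 hS h)
      rw [negS_insert hiS, hN, negS_update hiS]
    rw [Finset.sum_congr rfl h1, ← Finset.smul_sum, ih, zeroS_insert hi,
      Finset.card_insert_of_notMem hi, smul_smul, pow_succ, mul_comm]

omit [Fintype I] [Module ℚ V] in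
theorem sum_sgn {f : (∀ i, P i) → V}
    (hN : ∀ (i : I) (Q : ∀ i, P i), f Q + f (Function.update Q i (-Q i))
      = 2 • f (Function.update Q i 0)) (T : Finset I) (Q : ∀ i, P i) :
    ∑ S ∈ T.powerset, (-1 : ℤ) ^ S.card • f (negS S Q) = 2 ^ T.card • altS f T Q := by
  induction T using Finset.induction_on generalizing Q with
  | empty => simp [negS, altS, zeroS]
  | insert i T hi ih =>
    rw [Finset.sum_powerset_insert hi, ← Finset.sum_add_distrib, altS_insert f hi, smul_sub,
      Finset.card_insert_of_notMem hi, pow_succ, mul_comm, ← smul_smul, ← smul_smul, ← ih, ← ih,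
      Finset.smul_sum, Finset.smul_sum, ← Finset.sum_sub_distrib]
    refine Finset.sum_congr rfl fun S hS => ?_
    have hiS : i ∉ S := fun h => hi (Finset.mem_powerset.1 hS h)
    have h2 := hN i (negS S Q)
    rw [← negS_insert hiS, negS_update hiS] at h2
    have h3 : f (negS (insert i S) Q) = 2 • f (negS S (Function.update Q i 0)) - f (negS S Q) := by
      rw [← h2]; abel
    rw [h3, Finset.card_insert_of_notMem hiS, pow_succ, mul_neg_one, neg_smul, smul_sub,
      smul_comm ((-1 : ℤ) ^ S.card) (2 : ℕ), two_nsmul, two_nsmul]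
    abel

theorem altS_eq_zero {f : (∀ i, P i) → V}
    (hN : ∀ (i : I) (Q : ∀ i, P i), f Q + f (Function.update Q i (-Q i))
      = 2 • f (Function.update Q i 0)) {Q Q' : ∀ i, P i} {i : I} (hi : Q' i = 0)
    (h : ∑ S ∈ (Finset.univ : Finset I).powerset with Even S.card, f (negS S Q)
      = ∑ S ∈ (Finset.univ : Finset I).powerset with Even S.card, f (negS S Q')) :
    altS f Finset.univ Q = 0 := by
  have key : ∀ R : ∀ i, P i, 2 • ∑ S ∈ (Finset.univ : Finset I).powerset with Even S.card,
      f (negS S R) = 2 ^ Fintype.card I • f 0 + 2 ^ Fintype.card I • altS f Finset.univ R := by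
    intro R
    have h1 := sum_all hN Finset.univ R
    have h2 := sum_sgn hN Finset.univ R
    have h0 : zeroS Finset.univ R = 0 := by
      unfold zeroS; rw [Finset.piecewise_univ]
    rw [h0] at h1
    rw [Finset.card_univ] at h1 h2
    rw [← h1, ← h2, ← Finset.sum_add_distrib, Finset.sum_filter, Finset.smul_sum]
    refine Finset.sum_congr rfl fun S _ => ?_
    by_cases hS : Even S.card
    · rw [if_pos hS, hS.neg_one_pow, one_smul, two_nsmul]
    · rw [if_neg hS, (Nat.not_even_iff_odd.1 hS).neg_one_pow, neg_smul, one_smul, smul_zero,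
        add_neg_cancel]
  have h1 := key Q
  have h2 := key Q'
  rw [altS_zero f hi, smul_zero, add_zero] at h2
  rw [h, h2] at h1
  have h3 : 2 ^ Fintype.card I • altS f Finset.univ Q = 0 := by
    have h4 := sub_eq_zero.2 h1
    rw [← neg_eq_zero, ← h4]
    abel
  exact eq_zero_of_nsmul (pow_ne_zero _ two_ne_zero) h3

end abstract_part

section symbol

variable {k : Type*} [Field k] [IsAlgClosed k] [DecidableEq k] {I : Type} [Fintype I]
  [DecidableEq I] {A B : I → k} [∀ i, (Crv (A i) (B i)).IsElliptic]

omit [Fintype I] in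
theorem Mcl_neg [Nontrivial I] (i : I) (Q : MPt A B) :
    Mcl Q + Mcl (Function.update Q i (-Q i)) = 2 • Mcl (Function.update Q i 0) := by
  obtain ⟨j, hj⟩ := exists_ne i
  obtain ⟨f, hf⟩ := exists_push (A := A) (B := B) i j hj.symm Q
  have h1 := congrArg f (zero_rel_fst (Q j) (Q i))
  rw [map_add, map_add, hf, hf, hf] at h1
  have h0 : ∀ x : (Crv (A i) (B i)).Point,
      Function.update (Function.update Q i x) j (Q j) = Function.update Q i x := by
    intro x
    symm
    rw [Function.eq_update_iff]
    exact ⟨by rw [Function.update_of_ne hj], fun _ _ => rfl⟩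
  rw [h0, h0, h0, Function.update_eq_self] at h1
  rw [h1, two_nsmul]

end symbol

end AlbCH
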