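import Pool.Agent.Lib.MP_2eeeac_ag.Hyp.HA

/-!
# Relations from finite families of points which are permuted by the Galois group
-/

namespace AlbCH

open WeierstrassCurve WeierstrassCurve.Affine Finset

section orb

variable {k : Type*} [Field k] {I : Type} {A B : I → k}

/-- the Galois action on points of the product -/
noncomputable def Mgal (σ : Om k ≃ₐ[RatFunc k] Om k) (Q : MPtOm A B) : MPtOm A B :=
  fun i => gal σ (Q i)

theorem Mgal_one (Q : MPtOm A B) : Mgal (1 : Om k ≃ₐ[RatFunc k] Om k) Q = Q := by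
  funext i; exact gal_one (Q i)

theorem Mgal_mul (σ τ : Om k ≃ₐ[RatFunc k] Om k) (Q : MPtOm A B) :
    Mgal (σ * τ) Q = Mgal σ (Mgal τ Q) := by
  funext i; exact gal_mul σ τ (Q i)

theorem Mgal_inv (σ : Om k ≃ₐ[RatFunc k] Om k) (Q : MPtOm A B) :
    Mgal σ⁻¹ (Mgal σ Q) = Q := by
  rw [← Mgal_mul, inv_mul_cancel, Mgal_one]

theorem Mgal_inj (σ : Om k ≃ₐ[RatFunc k] Om k) {Q Q' : MPtOm A B}
    (h : Mgal σ Q = Mgal σ Q') : Q = Q' := by
  rw [← Mgal_inv σ Q, h, Mgal_inv]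

variable [∀ i, (Crv (A i) (B i)).IsElliptic]

/-- the specialisation of points of the product -/
noncomputable def Msp (π : Place k) (Q : MPtOm A B) : MPt A B := fun i => π.sp (Q i)

theorem M_orbit_rel (π₀ π₁ : Place k) (O : Finset (MPtOm A B)) (hO : MIsOrbit A B O) :
    ∑ Q ∈ O, (Mcl (Msp π₀ Q) - Mcl (Msp π₁ Q)) = 0 := by
  have h : (∑ Q ∈ O, (Finsupp.single (fun i => π₀.sp (Q i)) (1 : ℚ)
      - Finsupp.single (fun i => π₁.sp (Q i)) 1) : MZ0 A B) ∈ MratEquiv A B :=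
    Submodule.subset_span ⟨O, π₀, π₁, hO, rfl⟩
  have h2 := (Submodule.Quotient.mk_eq_zero (MratEquiv A B)).2 h
  rw [← h2]
  have h3 : ∀ z : MZ0 A B, (Submodule.Quotient.mk z : MCH0Q A B) = (MratEquiv A B).mkQ z :=
    fun _ => rfl
  rw [h3, map_sum]
  refine Finset.sum_congr rfl fun Q _ => ?_
  rw [map_sub]
  rfl

theorem stable_rel (π₀ π₁ : Place k) (n : MPtOm A B → ℕ) (N : ℕ) :
    ∀ S : Finset (MPtOm A B), S.card = N →
      (∀ Q ∈ S, ∀ σ : Om k ≃ₐ[RatFunc k] Om k, Mgal σ Q ∈ S ∧ n (Mgal σ Q) = n Q) →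
      ∑ Q ∈ S, n Q • (Mcl (Msp π₀ Q) - Mcl (Msp π₁ Q)) = 0 := by
  classical
  induction N using Nat.strong_induction_on with
  | _ N ih =>
    intro S hN hS
    rcases S.eq_empty_or_nonempty with rfl | ⟨Q₀, hQ₀⟩
    · simp
    · set O := S.filter (fun Q => ∃ σ : Om k ≃ₐ[RatFunc k] Om k, Q = Mgal σ Q₀) with hO
      have hsub : O ⊆ S := Finset.filter_subset _ _
      have hQ₀O : Q₀ ∈ O := by
        rw [hO, Finset.mem_filter]
        exact ⟨hQ₀, 1, (Mgal_one Q₀).symm⟩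
      have horb : MIsOrbit A B O := by
        refine ⟨Q₀, fun Q => ?_⟩
        rw [hO, Finset.mem_filter]
        constructor
        · rintro ⟨-, σ, h⟩
          exact ⟨σ, h⟩
        · rintro ⟨σ, h⟩
          have h' : Q = Mgal σ Q₀ := h
          refine ⟨?_, σ, h'⟩
          rw [h']
          exact (hS Q₀ hQ₀ σ).1
      have h1 : ∑ Q ∈ O, n Q • (Mcl (Msp π₀ Q) - Mcl (Msp π₁ Q)) = 0 := by
        have h2 : ∀ Q ∈ O, n Q • (Mcl (Msp π₀ Q) - Mcl (Msp π₁ Q))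
            = n Q₀ • (Mcl (Msp π₀ Q) - Mcl (Msp π₁ Q)) := by
          intro Q hQ
          rw [hO, Finset.mem_filter] at hQ
          obtain ⟨-, σ, rfl⟩ := hQ
          rw [(hS Q₀ hQ₀ σ).2]
        rw [Finset.sum_congr rfl h2, ← Finset.smul_sum, M_orbit_rel π₀ π₁ O horb, smul_zero]
      have h3 := ih (S \ O).card (by
        rw [← hN]
        apply Finset.card_lt_card
        refine ⟨Finset.sdiff_subset, fun h => ?_⟩
        have := h hQ₀
        rw [Finset.mem_sdiff] at this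
        exact this.2 hQ₀O) (S \ O) rfl (by
        intro Q hQ σ
        rw [Finset.mem_sdiff] at hQ
        refine ⟨?_, (hS Q hQ.1 σ).2⟩
        rw [Finset.mem_sdiff]
        refine ⟨(hS Q hQ.1 σ).1, fun h => hQ.2 ?_⟩
        rw [hO, Finset.mem_filter] at h ⊢
        obtain ⟨-, τ, hτ⟩ := h
        refine ⟨hQ.1, σ⁻¹ * τ, ?_⟩
        rw [Mgal_mul, ← hτ, Mgal_inv])
      rw [← Finset.sum_sdiff hsub, h1, h3, add_zero]

theorem family_rel {X : Type} (s : Finset X) (q : X → MPtOm A B) (π₀ π₁ : Place k)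
    (h : ∀ σ : Om k ≃ₐ[RatFunc k] Om k, ∃ p : X → X, Function.Injective p ∧
      (∀ x ∈ s, p x ∈ s) ∧ ∀ x ∈ s, Mgal σ (q x) = q (p x)) :
    ∑ x ∈ s, Mcl (Msp π₀ (q x)) = ∑ x ∈ s, Mcl (Msp π₁ (q x)) := by
  classical
  rw [← sub_eq_zero, ← Finset.sum_sub_distrib]
  set n : MPtOm A B → ℕ := fun Q => (s.filter fun x => q x = Q).card with hn
  have hle : ∀ (σ : Om k ≃ₐ[RatFunc k] Om k) (Q : MPtOm A B), n Q ≤ n (Mgal σ Q) := by
    intro σ Q
    obtain ⟨p, hp, hps, hpq⟩ := h σ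
    refine Finset.card_le_card_of_injOn p ?_ hp.injOn
    intro x hx
    rw [Finset.mem_coe, Finset.mem_filter] at hx ⊢
    exact ⟨hps x hx.1, by rw [← hpq x hx.1, hx.2]⟩
  have hinv : ∀ (σ : Om k ≃ₐ[RatFunc k] Om k) (Q : MPtOm A B), n (Mgal σ Q) = n Q := by
    intro σ Q
    refine le_antisymm ?_ (hle σ Q)
    have := hle σ⁻¹ (Mgal σ Q)
    rwa [Mgal_inv] at this
  have h1 := stable_rel π₀ π₁ n _ (s.image q) rfl (by
    intro Q hQ σ
    refine ⟨?_, hinv σ Q⟩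
    rw [Finset.mem_image] at hQ ⊢
    obtain ⟨x, hx, rfl⟩ := hQ
    obtain ⟨p, -, hps, hpq⟩ := h σ
    exact ⟨p x, hps x hx, (hpq x hx).symm⟩)
  rw [← h1]
  exact (Finset.sum_comp (fun Q => Mcl (Msp π₀ Q) - Mcl (Msp π₁ Q)) q)

end orb

end AlbCH
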