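import Pool.Agent.Lib.MP_2eeeac_ag.Hyp.HB

/-!
# The relation for points `(X_i, ± Y_i)` with an even number of signs
-/

namespace AlbCH

open WeierstrassCurve WeierstrassCurve.Affine Finset

section sgn

variable {k : Type*} [Field k] [CharZero k] {I : Type} [Fintype I] [DecidableEq I] {A B : I → k}
  [∀ i, (Crv (A i) (B i)).IsElliptic]

/-- the point with the coordinates in `S` negated, over `Ω` -/
noncomputable def sgnPt {X Y : I → Om k} (hP : ∀ i, (CrvOm (A i) (B i)).Nonsingular (X i) (Y i))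
    (S : Finset I) : MPtOm A B :=
  fun i => if i ∈ S then .some (X i) (-Y i) (gg_neg_nonsing (hP i)) else .some (X i) (Y i) (hP i)

omit [CharZero k] in
theorem sp_neg' (π : Place k) {a b : k} [(Crv a b).IsElliptic] {x y : Om k}
    (h : (CrvOm a b).Nonsingular x y) (h' : (CrvOm a b).Nonsingular x (-y)) :
    π.sp (.some x (-y) h') = -π.sp (.some x y h) := by
  by_cases hxy : x ∈ π.ring ∧ y ∈ π.ring
  · have hx : π.Has x (π.res ⟨x, hxy.1⟩) := ⟨hxy.1, rfl⟩
    have hy : π.Has y (π.res ⟨y, hxy.2⟩) := ⟨hxy.2, rfl⟩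
    have hns : (Crv a b).Nonsingular (π.res ⟨x, hxy.1⟩) (π.res ⟨y, hxy.2⟩) :=
      nonsing_of_eq (crv_equation.1 (π.res_equation h hxy.1 hxy.2))
    rw [π.sp_of_has h hx hy hns, π.sp_of_has h' hx (π.has_neg hy) (gg_neg_nonsing hns),
      gg_neg_some]
  · have h1 : π.sp (.some x y h) = 0 := dif_neg hxy
    have h2 : π.sp (.some x (-y) h') = 0 := by
      refine dif_neg fun h3 => hxy ⟨h3.1, ?_⟩
      have := neg_mem h3.2
      rwa [neg_neg] at this
    rw [h1, h2]
    rfl

omit [CharZero k] [Fintype I] in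
theorem Msp_sgnPt [DecidableEq k] (π : Place k) {X Y : I → Om k}
    (hP : ∀ i, (CrvOm (A i) (B i)).Nonsingular (X i) (Y i)) (S : Finset I) :
    Msp π (sgnPt hP S) = negS S (fun i => π.sp (.some (X i) (Y i) (hP i))) := by
  funext i
  unfold Msp sgnPt negS
  by_cases hi : i ∈ S
  · rw [if_pos hi, Finset.piecewise_eq_of_mem _ _ _ hi, sp_neg' π (hP i)]
    rfl
  · rw [if_neg hi, Finset.piecewise_eq_of_notMem _ _ _ hi]

theorem sgn_rel (π₀ π₁ : Place k) {X Y : I → Om k}
    (hP : ∀ i, (CrvOm (A i) (B i)).Nonsingular (X i) (Y i))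
    (hX : ∀ (σ : Om k ≃ₐ[RatFunc k] Om k) (i : I), σ (X i) = X i)
    (hY : ∀ (σ : Om k ≃ₐ[RatFunc k] Om k) (i : I), σ (Y i) = Y i ∨ σ (Y i) = -Y i)
    (hY0 : ∀ i, Y i ≠ 0)
    (hprod : ∀ σ : Om k ≃ₐ[RatFunc k] Om k, σ (∏ i, Y i) = ∏ i, Y i) :
    ∑ S ∈ (Finset.univ : Finset I).powerset with Even S.card, Mcl (Msp π₀ (sgnPt hP S))
      = ∑ S ∈ (Finset.univ : Finset I).powerset with Even S.card,
        Mcl (Msp π₁ (sgnPt hP S)) := by
  classical
  refine family_rel _ _ π₀ π₁ fun σ => ?_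
  set T : Finset I := Finset.univ.filter (fun i => σ (Y i) = -Y i) with hT
  have hTmem : ∀ i, i ∈ T ↔ σ (Y i) = -Y i := by
    intro i; rw [hT, Finset.mem_filter]; simp
  have hTn : ∀ i, i ∉ T → σ (Y i) = Y i := by
    intro i hi
    rcases hY σ i with h | h
    · exact h
    · exact absurd ((hTmem i).2 h) hi
  have h2 : (2 : Om k) ≠ 0 := by
    have : (algebraMap k (Om k)) 2 ≠ 0 := by
      rw [Ne, map_eq_zero]; exact two_ne_zero
    rwa [map_ofNat] at this
  have heven : Even T.card := by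
    have h3 : σ (∏ i, Y i) = (-1) ^ T.card * ∏ i, Y i := by
      rw [map_prod, ← Finset.prod_mul_prod_compl T, ← Finset.prod_mul_prod_compl T (fun i => Y i)]
      have h4 : ∏ i ∈ T, σ (Y i) = (-1) ^ T.card * ∏ i ∈ T, Y i := by
        rw [← Finset.prod_const, ← Finset.prod_mul_distrib]
        refine Finset.prod_congr rfl fun i hi => ?_
        rw [(hTmem i).1 hi, neg_one_mul]
      have h5 : ∏ i ∈ Tᶜ, σ (Y i) = ∏ i ∈ Tᶜ, Y i := by
        refine Finset.prod_congr rfl fun i hi => ?_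
        exact hTn i (Finset.mem_compl.1 hi)
      rw [h4, h5, mul_assoc]
    have h6 : ∏ i, Y i ≠ 0 := Finset.prod_ne_zero_iff.2 fun i _ => hY0 i
    rw [hprod σ] at h3
    by_contra hodd
    rw [(Nat.not_even_iff_odd.1 hodd).neg_one_pow, neg_one_mul] at h3
    apply h6
    have h7 : 2 * ∏ i, Y i = 0 := by linear_combination h3
    exact (mul_eq_zero.1 h7).resolve_left h2
  refine ⟨fun S => symmDiff S T, fun S S' h => ?_, fun S hS => ?_, fun S _ => ?_⟩
  · have h' : symmDiff (symmDiff S T) T = symmDiff (symmDiff S' T) T := by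
      change symmDiff S T = symmDiff S' T at h
      rw [h]
    rwa [symmDiff_symmDiff_cancel_right, symmDiff_symmDiff_cancel_right] at h'
  · rw [Finset.mem_filter] at hS ⊢
    refine ⟨by simp, ?_⟩
    have h8 : (symmDiff S T).card + 2 * (S ∩ T).card = S.card + T.card := by
      have h9 : (S \ T).card + (S ∩ T).card = S.card := Finset.card_sdiff_add_card_inter S T
      have h10 : (T \ S).card + (T ∩ S).card = T.card := Finset.card_sdiff_add_card_inter T S
      have h11 : (symmDiff S T).card = (S \ T).card + (T \ S).card := by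
        rw [symmDiff_def, Finset.sup_eq_union, Finset.card_union_of_disjoint]
        exact disjoint_sdiff_sdiff
      rw [Finset.inter_comm T S] at h10
      omega
    have h12 : Even (S.card + T.card) := hS.2.add heven
    rw [← h8] at h12
    rw [Nat.even_add] at h12
    exact h12.2 (even_two_mul _)
  · funext i
    unfold Mgal sgnPt
    have hmem : i ∈ symmDiff S T ↔ ((i ∈ S ∧ i ∉ T) ∨ (i ∈ T ∧ i ∉ S)) := Finset.mem_symmDiff
    by_cases hiS : i ∈ S
    · by_cases hiT : i ∈ T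
      · have : i ∉ symmDiff S T := by rw [hmem]; tauto
        rw [if_pos hiS, if_neg this]
        refine gg_some_congr _ _ (hX σ i) ?_
        rw [map_neg, (hTmem i).1 hiT, neg_neg]
      · have : i ∈ symmDiff S T := by rw [hmem]; tauto
        rw [if_pos hiS, if_pos this]
        refine gg_some_congr _ _ (hX σ i) ?_
        rw [map_neg, hTn i hiT]
    · by_cases hiT : i ∈ T
      · have : i ∈ symmDiff S T := by rw [hmem]; tauto
        rw [if_neg hiS, if_pos this]
        exact gg_some_congr _ _ (hX σ i) ((hTmem i).1 hiT)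
      · have : i ∉ symmDiff S T := by rw [hmem]; tauto
        rw [if_neg hiS, if_neg this]
        exact gg_some_congr _ _ (hX σ i) (hTn i hiT)

end sgn

section main_abstract

variable {k : Type*} [Field k] [CharZero k] [IsAlgClosed k] [DecidableEq k] {I : Type} [Fintype I]
  [DecidableEq I] {A B : I → k} [∀ i, (Crv (A i) (B i)).IsElliptic]

/-- The class of `(Q_1 - O) × ⋯ × (Q_m - O)` in `CH₀(∏ E_i) ⊗ ℚ`: the alternating sum over all
subsets `S` of the classes of the points with the coordinates in `S` replaced by `O`. -/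
noncomputable def Msymb (Q : MPt A B) : MCH0Q A B :=
  ∑ S : Finset I, (-1 : ℤ) ^ S.card • Mcl (S.piecewise 0 Q)

omit [CharZero k] [IsAlgClosed k] in
theorem Msymb_eq (Q : MPt A B) : Msymb Q = altS Mcl Finset.univ Q := by
  unfold Msymb altS zeroS
  rw [Finset.powerset_univ]

omit [CharZero k] [IsAlgClosed k] in
theorem Msymb_zero {Q : MPt A B} {i : I} (h : Q i = 0) : Msymb Q = 0 := by
  rw [Msymb_eq, altS_zero _ h]

/-- **Criterion.** Rational functions `X_i` with `∏ (X_i³ + A_i X_i + B_i)` a square. -/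
theorem Msymb_of_curve [Nontrivial I] (π₀ π₁ : Place k) (X : I → Om k) (G : Om k)
    (hX : ∀ (σ : Om k ≃ₐ[RatFunc k] Om k) (i : I), σ (X i) = X i)
    (hG : ∀ σ : Om k ≃ₐ[RatFunc k] Om k, σ G = G)
    (hsq : ∏ i, (X i ^ 3 + algebraMap k (Om k) (A i) * X i + algebraMap k (Om k) (B i)) = G ^ 2)
    (x y : I → k) (hP : ∀ i, (Crv (A i) (B i)).Nonsingular (x i) (y i)) (hy : ∀ i, y i ≠ 0)
    (h0 : ∀ i, π₀.Has (X i) (x i)) (i₁ : I) (h1 : X i₁ ∉ π₁.ring) :
    Msymb (fun i => (.some (x i) (y i) (hP i) : (Crv (A i) (B i)).Point)) = 0 := by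
  classical
  -- choose the ordinates
  have hex : ∀ i, ∃ Y : Om k, Y ^ 2 = X i ^ 3 + algebraMap k (Om k) (A i) * X i
      + algebraMap k (Om k) (B i) ∧ π₀.Has Y (y i) := by
    intro i
    obtain ⟨Y, hY⟩ := IsAlgClosed.exists_pow_nat_eq
      (X i ^ 3 + algebraMap k (Om k) (A i) * X i + algebraMap k (Om k) (B i)) (n := 2)
      (by norm_num)
    have hY2 : π₀.Has (Y ^ 2) (y i ^ 2) := by
      rw [hY, (crv_nonsing.1 (hP i)).1]
      exact π₀.has_add (π₀.has_add (π₀.has_pow (h0 i) 3) (π₀.has_mul (π₀.has_const _) (h0 i)))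
        (π₀.has_const _)
    obtain ⟨d, hd, hd2⟩ := π₀.has_sqrt hY2
    rcases sq_eq_sq_iff_eq_or_eq_neg.1 hd2 with h7 | h7
    · exact ⟨Y, hY, by rw [← h7]; exact hd⟩
    · refine ⟨-Y, by rw [neg_sq]; exact hY, ?_⟩
      have := π₀.has_neg hd
      rwa [h7, neg_neg] at this
  choose Y hYsq hYd using hex
  have hY0 : ∀ i, Y i ≠ 0 := by
    intro i h
    apply hy i
    have := hYd i
    rw [h] at this
    have h2 := π₀.has_const 0
    rw [map_zero] at h2
    exact π₀.has_unique this h2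
  have hYs : ∀ (σ : Om k ≃ₐ[RatFunc k] Om k) (i : I), σ (Y i) = Y i ∨ σ (Y i) = -Y i := by
    intro σ i
    have h5 : (σ (Y i)) ^ 2 = Y i ^ 2 := by
      rw [← map_pow, hYsq, map_add, map_add, map_pow, map_mul, hX, gg_sigma_const,
        gg_sigma_const]
    exact sq_eq_sq_iff_eq_or_eq_neg.1 h5
  have hpr : ∀ σ : Om k ≃ₐ[RatFunc k] Om k, σ (∏ i, Y i) = ∏ i, Y i := by
    intro σ
    have h5 : (∏ i, Y i) ^ 2 = G ^ 2 := by
      rw [← Finset.prod_pow, ← hsq]
      exact Finset.prod_congr rfl fun i _ => hYsq i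
    rcases sq_eq_sq_iff_eq_or_eq_neg.1 h5 with h6 | h6
    · rw [h6, hG]
    · rw [h6, map_neg, hG]
  have hPO : ∀ i, (CrvOm (A i) (B i)).Nonsingular (X i) (Y i) := fun i => nonsing_of_eq (hYsq i)
  have hrel := sgn_rel π₀ π₁ hPO hX hYs hY0 hpr
  simp only [Msp_sgnPt] at hrel
  rw [Msymb_eq]
  have hQ : (fun i => (.some (x i) (y i) (hP i) : (Crv (A i) (B i)).Point))
      = fun i => π₀.sp (.some (X i) (Y i) (hPO i)) := by
    funext i
    rw [π₀.sp_of_has (hPO i) (h0 i) (hYd i) (hP i)]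
  rw [hQ]
  exact altS_eq_zero Mcl_neg (i := i₁) (π₁.sp_of_notMem (hPO i₁) h1) hrel

end main_abstract

end AlbCH
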