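import Pool.Agent.Lib.MP_2eeeac_ag.Hyp.HC
import Pool.Agent.Lib.MP_2eeeac_ag.Iso.G

/-!
# The explicit hypersurface
-/

namespace AlbCH

open WeierstrassCurve WeierstrassCurve.Affine Finset

section field

variable {k : Type*} [Field k] [CharZero k] [IsAlgClosed k]

/-- the rational function `1 - b w` -/
noncomputable def LL (w : Om k) (b : k) : Om k := 1 - algebraMap k (Om k) b * w

omit [CharZero k] [IsAlgClosed k] in
theorem LL_zero (w : Om k) : LL w (0 : k) = 1 := by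
  unfold LL; rw [map_zero, zero_mul, sub_zero]

/-- the abscissa as a rational function of `w` -/
noncomputable def XX (w : Om k) (α κ ρ : k) : Om k :=
  algebraMap k (Om k) α + algebraMap k (Om k) κ * w / LL w ρ

omit [CharZero k] [IsAlgClosed k] in
theorem XX_sub {w : Om k} {α κ ρ e b : k} (hρ : LL w ρ ≠ 0) (h : (e - α) * (b - ρ) = κ) :
    XX w α κ ρ - algebraMap k (Om k) e = algebraMap k (Om k) (α - e) * LL w b / LL w ρ := by
  unfold XX
  rw [eq_div_iff hρ, sub_mul, add_mul, div_mul_cancel₀ _ hρ, ← h]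
  unfold LL
  simp only [map_sub, map_mul]
  ring

omit [CharZero k] [IsAlgClosed k] in
theorem XX_cubic {w : Om k} {A B α κ ρ e₁ e₂ e₃ b₁ b₂ b₃ y : k} (hρ : LL w ρ ≠ 0)
    (hR : Roots A B e₁ e₂ e₃) (hy : y ^ 2 = α ^ 3 + A * α + B)
    (h₁ : (e₁ - α) * (b₁ - ρ) = κ) (h₂ : (e₂ - α) * (b₂ - ρ) = κ)
    (h₃ : (e₃ - α) * (b₃ - ρ) = κ) :
    XX w α κ ρ ^ 3 + algebraMap k (Om k) A * XX w α κ ρ + algebraMap k (Om k) B
      = algebraMap k (Om k) y ^ 2 * (LL w b₁ * LL w b₂ * LL w b₃) / LL w ρ ^ 3 := by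
  rw [gg_factor (gg_roots_map (algebraMap k (Om k)) hR), XX_sub hρ h₁, XX_sub hρ h₂,
    XX_sub hρ h₃, ← map_pow, hy, gg_factor hR, map_mul, map_mul]
  field_simp

/-- the field `k(t)` inside `Ω` -/
noncomputable abbrev KK (k : Type*) [Field k] : Subfield (Om k) :=
  (algebraMap (RatFunc k) (Om k)).fieldRange

omit [CharZero k] [IsAlgClosed k] in
theorem KK_const (c : k) : algebraMap k (Om k) c ∈ KK k := by
  rw [IsScalarTower.algebraMap_apply k (RatFunc k) (Om k)]
  exact ⟨_, rfl⟩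

omit [CharZero k] [IsAlgClosed k] in
theorem KK_TT : TT k ∈ KK k := ⟨_, rfl⟩

omit [CharZero k] [IsAlgClosed k] in
theorem KK_fixed {g : Om k} (hg : g ∈ KK k) (σ : Om k ≃ₐ[RatFunc k] Om k) : σ g = g := by
  obtain ⟨a, rfl⟩ := hg
  exact σ.commutes a

omit [CharZero k] [IsAlgClosed k] in
theorem KK_LL {w : Om k} (hw : w ∈ KK k) (b : k) : LL w b ∈ KK k :=
  sub_mem (one_mem _) (mul_mem (KK_const b) hw)

omit [CharZero k] [IsAlgClosed k] in
theorem KK_XX {w : Om k} (hw : w ∈ KK k) (α κ ρ : k) : XX w α κ ρ ∈ KK k :=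
  add_mem (KK_const α) (div_mem (mul_mem (KK_const κ) hw) (KK_LL hw ρ))

/-- The conic: a rational function `w` with `(1 - p w)(1 - q w)` a square, a zero and a pole. -/
theorem exists_conic {p q : k} (hp : p ≠ 0) :
    ∃ (w H : Om k) (π₀ π₁ : Place k), w ∈ KK k ∧ H ∈ KK k ∧ LL w p * LL w q = H ^ 2 ∧
      π₀.Has w 0 ∧ w ∉ π₁.ring := by
  obtain ⟨T₀, hT₀, hT₁⟩ : ∃ T₀ : k, T₀ ^ 2 = p * q ∧ 2 * T₀ + p + q ≠ 0 := by
    obtain ⟨T, hT⟩ := IsAlgClosed.exists_pow_nat_eq (p * q) (n := 2) (by norm_num)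
    by_cases h : 2 * T + p + q = 0
    · refine ⟨-T, by rw [neg_sq, hT], fun h' => ?_⟩
      have h1 : 4 * T = 0 := by linear_combination h - h'
      have h2 : T = 0 := by
        rcases mul_eq_zero.1 h1 with h3 | h3
        · exact absurd h3 (by norm_num)
        · exact h3
      rw [h2] at h hT
      have h4 : q = -p := by linear_combination h
      rw [h4] at hT
      apply hp
      have h5 : p ^ 2 = 0 := by linear_combination hT
      exact pow_eq_zero_iff (two_ne_zero) |>.1 h5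
    · exact ⟨T, hT, h⟩
  obtain ⟨π₀, hπ₀⟩ := exists_place (0 : k)
  obtain ⟨π₁, hπ₁⟩ := exists_place (1 : k)
  set τ : Om k := TT k with hτ
  set g := algebraMap k (Om k) with hg
  set U : Om k := 1 + g (T₀ - 1) * τ with hU
  set M : Om k := 2 * U + g (p + q) * τ with hM
  set N : Om k := g (p * q) * τ ^ 2 - U ^ 2 with hN
  have hτK : τ ∈ KK k := KK_TT
  have hUK : U ∈ KK k := add_mem (one_mem _) (mul_mem (KK_const _) hτK)
  have hMK : M ∈ KK k := by
    have h2 : (2 : Om k) ∈ KK k := by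
      have := KK_const (2 : k)
      rwa [map_ofNat] at this
    exact add_mem (mul_mem h2 hUK) (mul_mem (KK_const _) hτK)
  have hNK : N ∈ KK k := sub_mem (mul_mem (KK_const _) (pow_mem hτK 2)) (pow_mem hUK 2)
  have hU0 : π₀.Has U 1 := by
    have := π₀.has_add π₀.G_one (π₀.has_mul (π₀.has_const (T₀ - 1)) hπ₀)
    rwa [mul_zero, add_zero] at this
  have hM0 : π₀.Has M 2 := by
    have := π₀.has_add (π₀.has_mul (π₀.G_ofNat 2) hU0) (π₀.has_mul (π₀.has_const (p + q)) hπ₀)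
    rwa [mul_zero, add_zero, mul_one] at this
  have hN0 : π₀.Has N (-1) := by
    have := π₀.has_sub (π₀.has_mul (π₀.has_const (p * q)) (π₀.has_pow hπ₀ 2)) (π₀.has_pow hU0 2)
    have h3 : p * q * 0 ^ 2 - 1 ^ 2 = (-1 : k) := by ring
    rwa [h3] at this
  have hNne : N ≠ 0 := by
    intro h
    rw [h] at hN0
    have h2 := π₀.has_const 0
    rw [map_zero] at h2
    have h3 := π₀.has_unique hN0 h2
    exact one_ne_zero (by linear_combination -h3 : (1 : k) = 0)
  have hU1 : π₁.Has U T₀ := by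
    have := π₁.has_add π₁.G_one (π₁.has_mul (π₁.has_const (T₀ - 1)) hπ₁)
    have h3 : 1 + (T₀ - 1) * 1 = T₀ := by ring
    rwa [h3] at this
  have hM1 : π₁.Has M (2 * T₀ + p + q) := by
    have := π₁.has_add (π₁.has_mul (π₁.G_ofNat 2) hU1) (π₁.has_mul (π₁.has_const (p + q)) hπ₁)
    have h3 : 2 * T₀ + (p + q) * 1 = 2 * T₀ + p + q := by ring
    rwa [h3] at this
  have hN1 : π₁.Has N 0 := by
    have := π₁.has_sub (π₁.has_mul (π₁.has_const (p * q)) (π₁.has_pow hπ₁ 2)) (π₁.has_pow hU1 2)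
    have h3 : p * q * 1 ^ 2 - T₀ ^ 2 = 0 := by rw [hT₀]; ring
    rwa [h3] at this
  refine ⟨τ * M / N, (U + g p * τ) * (U + g q * τ) / N, π₀, π₁,
    div_mem (mul_mem hτK hMK) hNK,
    div_mem (mul_mem (add_mem hUK (mul_mem (KK_const _) hτK))
      (add_mem hUK (mul_mem (KK_const _) hτK))) hNK, ?_, ?_, ?_⟩
  · have hLp : LL (τ * M / N) p = -(U + g p * τ) ^ 2 / N := by
      unfold LL
      rw [eq_div_iff hNne, sub_mul, mul_assoc, div_mul_cancel₀ _ hNne, hN, hM]
      simp only [map_add, map_mul, ← hg]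
      ring
    have hLq : LL (τ * M / N) q = -(U + g q * τ) ^ 2 / N := by
      unfold LL
      rw [eq_div_iff hNne, sub_mul, mul_assoc, div_mul_cancel₀ _ hNne, hN, hM]
      simp only [map_add, map_mul, ← hg]
      ring
    rw [hLp, hLq]
    field_simp
  · have := π₀.has_div (π₀.has_mul hπ₀ hM0) hN0 (by norm_num)
    rwa [zero_mul, zero_div] at this
  · refine π₁.div_notMem hN1 hNne (π₁.has_mul hπ₁ hM1) ?_
    rw [one_mul]
    exact hT₁

end field

end AlbCH
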