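import Pool.Agent.Lib.MP_2eeeac_ag.Hyp.HD

/-!
# The explicit hypersurface: the chain of pairs and the main theorem
-/

namespace AlbCH

open WeierstrassCurve WeierstrassCurve.Affine Finset

section chain

variable {k : Type*} [Field k] [CharZero k] [IsAlgClosed k]

/-- the cubic `x³ + A x + B` over `Ω` -/
noncomputable def cubO (A B : k) (X : Om k) : Om k :=
  X ^ 3 + algebraMap k (Om k) A * X + algebraMap k (Om k) B

omit [CharZero k] [IsAlgClosed k] in
theorem root_ne {A B x y e₁ e₂ e₃ : k} (hR : Roots A B e₁ e₂ e₃)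
    (hy : y ^ 2 = x ^ 3 + A * x + B) (hy0 : y ≠ 0) : e₁ - x ≠ 0 ∧ e₂ - x ≠ 0 ∧ e₃ - x ≠ 0 := by
  rw [gg_factor hR] at hy
  have h : (x - e₁) * (x - e₂) * (x - e₃) ≠ 0 := by
    rw [← hy]; exact pow_ne_zero 2 hy0
  refine ⟨fun h1 => h ?_, fun h1 => h ?_, fun h1 => h ?_⟩
  · rw [show x - e₁ = 0 by linear_combination -h1]; ring
  · rw [show x - e₂ = 0 by linear_combination -h1]; ring
  · rw [show x - e₃ = 0 by linear_combination -h1]; ring

omit [CharZero k] [IsAlgClosed k] in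
theorem chain_prod {n : ℕ} {A B x y e₁ e₂ e₃ r s : ℕ → k} {w : Om k} (hw : w ∈ KK k)
    (hL : ∀ b : k, LL w b ≠ 0)
    (hR : ∀ i < n, Roots (A i) (B i) (e₁ i) (e₂ i) (e₃ i))
    (hy : ∀ i < n, y i ^ 2 = x i ^ 3 + A i * x i + B i)
    (hr0 : r 0 = 0) (hs0 : s 0 = 1)
    (hr : ∀ i < n, (e₁ i - x i) * (r (i + 1) - r i) = (s i - r i) * (e₃ i - x i))
    (hs : ∀ i < n, (e₂ i - x i) * (s (i + 1) - r i) = (s i - r i) * (e₃ i - x i)) :
    ∀ j ≤ n, ∃ G ∈ KK k,
      (∏ i ∈ range j, cubO (A i) (B i) (XX w (x i) ((s i - r i) * (e₃ i - x i)) (r i)))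
        * LL w (1 : k) = G ^ 2 * (LL w (r j) * LL w (s j)) := by
  intro j
  induction j with
  | zero =>
    intro _
    refine ⟨1, one_mem _, ?_⟩
    rw [Finset.prod_range_zero, hr0, hs0, LL_zero]
    ring
  | succ j ih =>
    intro hj
    obtain ⟨G, hG, h⟩ := ih (by omega)
    have hjn : j < n := by omega
    have hc : cubO (A j) (B j) (XX w (x j) ((s j - r j) * (e₃ j - x j)) (r j))
        = algebraMap k (Om k) (y j) ^ 2 * (LL w (r (j + 1)) * LL w (s (j + 1)) * LL w (s j))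
          / LL w (r j) ^ 3 :=
      XX_cubic (hL _) (hR j hjn) (hy j hjn) (hr j hjn) (hs j hjn) (by ring)
    refine ⟨G * algebraMap k (Om k) (y j) * LL w (s j) / LL w (r j),
      div_mem (mul_mem (mul_mem hG (KK_const _)) (KK_LL hw _)) (KK_LL hw _), ?_⟩
    rw [Finset.prod_range_succ, hc]
    have h1 := hL (r j)
    calc (∏ i ∈ range j, cubO (A i) (B i) (XX w (x i) ((s i - r i) * (e₃ i - x i)) (r i)))
          * (algebraMap k (Om k) (y j) ^ 2 * (LL w (r (j + 1)) * LL w (s (j + 1)) * LL w (s j))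
          / LL w (r j) ^ 3) * LL w (1 : k)
        = ((∏ i ∈ range j, cubO (A i) (B i) (XX w (x i) ((s i - r i) * (e₃ i - x i)) (r i)))
          * LL w (1 : k)) * (algebraMap k (Om k) (y j) ^ 2 * (LL w (r (j + 1))
            * LL w (s (j + 1)) * LL w (s j)) / LL w (r j) ^ 3) := by ring
      _ = _ := by
          rw [h]
          field_simp

end chain

section final

variable {k : Type*} [Field k] [CharZero k] [IsAlgClosed k] [DecidableEq k]

omit [CharZero k] [IsAlgClosed k] [DecidableEq k] in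
theorem cubO_last {A B x y e₁ e₂ e₃ b₁ b₂ b₃ κ ρ : k} {w : Om k} (hρ : LL w ρ ≠ 0)
    (hR : Roots A B e₁ e₂ e₃) (hy : y ^ 2 = x ^ 3 + A * x + B)
    (h₁ : (e₁ - x) * (b₁ - ρ) = κ) (h₂ : (e₂ - x) * (b₂ - ρ) = κ)
    (h₃ : (e₃ - x) * (b₃ - ρ) = κ) :
    cubO A B (XX w x κ ρ) = algebraMap k (Om k) y ^ 2 * (LL w b₁ * LL w b₂ * LL w b₃)
      / LL w ρ ^ 3 := XX_cubic hρ hR hy h₁ h₂ h₃

theorem hyp_main {n : ℕ} {A B x y e₁ e₂ e₃ r s : ℕ → k} {c : k}
    [∀ i : Fin (n + 2), (Crv (A i) (B i)).IsElliptic]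
    (hR : ∀ i < n + 2, Roots (A i) (B i) (e₁ i) (e₂ i) (e₃ i))
    (hP : ∀ i : Fin (n + 2), (Crv (A i) (B i)).Nonsingular (x i) (y i))
    (hy0 : ∀ i < n + 2, y i ≠ 0)
    (hr0 : r 0 = 0) (hs0 : s 0 = 1)
    (hr : ∀ i < n, (e₁ i - x i) * (r (i + 1) - r i) = (s i - r i) * (e₃ i - x i))
    (hs : ∀ i < n, (e₂ i - x i) * (s (i + 1) - r i) = (s i - r i) * (e₃ i - x i))
    (hc : (e₁ n - x n) * c = e₃ n - x n)
    (hrel : (e₁ (n + 1) - x (n + 1)) * (r n - c) = (e₂ (n + 1) - x (n + 1)) * (s n - c)) :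
    Msymb (A := fun i : Fin (n + 2) => A i) (B := fun i : Fin (n + 2) => B i)
      (fun i => (.some (x i) (y i) (hP i) : (Crv (A i) (B i)).Point)) = 0 := by
  have hy : ∀ i < n + 2, y i ^ 2 = x i ^ 3 + A i * x i + B i := fun i hi =>
    (crv_nonsing.1 (hP ⟨i, hi⟩)).1
  have hne := fun i (hi : i < n + 2) => root_ne (hR i hi) (hy i hi) (hy0 i hi)
  obtain ⟨hn1, hn2, hn3⟩ := hne n (by omega)
  obtain ⟨hl1, hl2, hl3⟩ := hne (n + 1) (by omega)
  set κ' : k := (e₁ (n + 1) - x (n + 1)) * (r n - c) with hκ'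
  obtain ⟨p, hp⟩ : ∃ p : k, (e₂ n - x n) * (p - 0) = e₃ n - x n :=
    ⟨(e₃ n - x n) / (e₂ n - x n), by rw [sub_zero, mul_div_cancel₀ _ hn2]⟩
  obtain ⟨q, hq⟩ : ∃ q : k, (e₃ (n + 1) - x (n + 1)) * (q - c) = κ' :=
    ⟨c + κ' / (e₃ (n + 1) - x (n + 1)), by
      rw [add_sub_cancel_left, mul_div_cancel₀ _ hl3]⟩
  have hp0 : p ≠ 0 := by
    rintro rfl
    apply hn3
    rw [← hp]; ring
  obtain ⟨w, H, π₀, π₁, hwK, hHK, hH, hw0, hw1⟩ := exists_conic (q := q) hp0
  have hLres : ∀ b : k, π₀.Has (LL w b) 1 := by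
    intro b
    have := π₀.has_sub π₀.G_one (π₀.has_mul (π₀.has_const b) hw0)
    rwa [mul_zero, sub_zero] at this
  have hL : ∀ b : k, LL w b ≠ 0 := by
    intro b h
    have h1 := hLres b
    rw [h] at h1
    have h2 := π₀.has_const 0
    rw [map_zero] at h2
    exact one_ne_zero (π₀.has_unique h1 h2)
  obtain ⟨G, hGK, hG⟩ := chain_prod hwK hL (fun i hi => hR i (by omega))
    (fun i hi => hy i (by omega)) hr0 hs0 hr hs n le_rfl
  -- the abscissas
  let κ : ℕ → k := fun i => if i < n then (s i - r i) * (e₃ i - x i)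
    else if i = n then e₃ n - x n else κ'
  let ρ : ℕ → k := fun i => if i < n then r i else if i = n then 0 else c
  have hκn : κ n = e₃ n - x n := by simp [κ]
  have hρn : ρ n = 0 := by simp [ρ]
  have hκl : κ (n + 1) = κ' := by simp [κ]
  have hρl : ρ (n + 1) = c := by simp [ρ]
  let X : ℕ → Om k := fun i => XX w (x i) (κ i) (ρ i)
  have hXK : ∀ i, X i ∈ KK k := fun i => KK_XX hwK _ _ _
  have hfn : cubO (A n) (B n) (X n) = algebraMap k (Om k) (y n) ^ 2 * (LL w c * LL w p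
      * LL w (1 : k)) / LL w (0 : k) ^ 3 := by
    change cubO (A n) (B n) (XX w (x n) (κ n) (ρ n)) = _
    rw [hκn, hρn]
    exact cubO_last (hL _) (hR n (by omega)) (hy n (by omega)) (by rw [sub_zero, hc]) hp
      (by ring)
  have hfl : cubO (A (n + 1)) (B (n + 1)) (X (n + 1)) = algebraMap k (Om k) (y (n + 1)) ^ 2
      * (LL w (r n) * LL w (s n) * LL w q) / LL w c ^ 3 := by
    change cubO (A (n + 1)) (B (n + 1)) (XX w (x (n + 1)) (κ (n + 1)) (ρ (n + 1))) = _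
    rw [hκl, hρl]
    exact cubO_last (hL _) (hR (n + 1) (by omega)) (hy (n + 1) (by omega)) hκ'.symm
      hrel.symm hq
  have hprod : ∏ i ∈ range (n + 2), cubO (A i) (B i) (X i)
      = (G * algebraMap k (Om k) (y n) * algebraMap k (Om k) (y (n + 1)) * LL w (r n)
        * LL w (s n) / LL w c * H) ^ 2 := by
    rw [Finset.prod_range_succ, Finset.prod_range_succ, hfn, hfl, LL_zero]
    have h1 : ∏ i ∈ range n, cubO (A i) (B i) (X i)
        = ∏ i ∈ range n, cubO (A i) (B i) (XX w (x i) ((s i - r i) * (e₃ i - x i)) (r i)) := by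
      refine Finset.prod_congr rfl fun i hi => ?_
      have hi' : i < n := Finset.mem_range.1 hi
      simp only [X, κ, ρ, if_pos hi']
    rw [h1]
    have hc0 := hL c
    have h10 := hL (1 : k)
    have e1 : (∏ i ∈ range n, cubO (A i) (B i) (XX w (x i) ((s i - r i) * (e₃ i - x i)) (r i)))
        = G ^ 2 * (LL w (r n) * LL w (s n)) / LL w (1 : k) := by
      rw [eq_div_iff h10, hG]
    rw [e1, mul_pow _ H, ← hH]
    field_simp
  refine Msymb_of_curve (A := fun i : Fin (n + 2) => A i) (B := fun i : Fin (n + 2) => B i)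
    π₀ π₁ (fun i => X i) (G * algebraMap k (Om k) (y n) * algebraMap k (Om k) (y (n + 1))
      * LL w (r n) * LL w (s n) / LL w c * H) (fun σ i => KK_fixed (hXK i) σ) (fun σ => ?_) ?_
    (fun i => x i) (fun i => y i) hP (fun i => hy0 i i.2) ?_ 0 ?_
  · refine KK_fixed ?_ σ
    exact mul_mem (div_mem (mul_mem (mul_mem (mul_mem (mul_mem hGK (KK_const _)) (KK_const _))
      (KK_LL hwK _)) (KK_LL hwK _)) (KK_LL hwK _)) hHK
  · rw [← hprod]
    exact Fin.prod_univ_eq_prod_range (fun i => cubO (A i) (B i) (X i)) (n + 2)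
  · intro i
    have h1 := π₀.has_add (π₀.has_const (x i)) (π₀.has_div (π₀.has_mul
      (π₀.has_const (κ i)) hw0) (hLres (ρ i)) one_ne_zero)
    rwa [mul_zero, zero_div, add_zero] at h1
  · have h1 : X 0 = algebraMap k (Om k) (e₃ 0 - x 0) * w + algebraMap k (Om k) (x 0) := by
      have h2 : ρ 0 = 0 ∧ κ 0 = e₃ 0 - x 0 := by
        by_cases h0 : 0 < n
        · simp only [ρ, κ, if_pos h0, hr0, hs0, sub_zero, one_mul, and_self]
        · have hn : n = 0 := by omega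
          subst hn
          simp [ρ, κ]
      change XX w (x 0) (κ 0) (ρ 0) = _
      rw [h2.1, h2.2]
      unfold XX
      rw [LL_zero, div_one, add_comm]
    have h2 : X ((0 : Fin (n + 2)) : ℕ) = X 0 := by simp
    rw [h2, h1]
    exact π₁.affine_notMem hw1 _ (hne 0 (by omega)).2.2

end final

end AlbCH
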