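import Pool.Agent.Lib.MP_2eeeac_ag.Hyp.HE

/-!
# The hypersurface in `E_0 × ⋯ × E_{n+1}`: definitions and the final form

* `chn x e₁ e₂ e₃ i = (r_i, s_i)`: `(r_0, s_0) = (0, 1)`,
  `r_{i+1} = r_i + (s_i - r_i) (e₃_i - x_i) / (e₁_i - x_i)`,
  `s_{i+1} = r_i + (s_i - r_i) (e₃_i - x_i) / (e₂_i - x_i)`.
* `lastX n x e₁ e₂ e₃`: with `(r, s) = (r_n, s_n)` and `c = (e₃_n - x_n) / (e₁_n - x_n)`, the number
  `(e₁_{n+1} (r - c) - e₂_{n+1} (s - c)) / (r - s)`.
-/

namespace AlbCH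

open WeierstrassCurve WeierstrassCurve.Affine Finset

/-- The pairs `(r_i, s_i)`. -/
noncomputable def chn {F : Type*} [Field F] (x e₁ e₂ e₃ : ℕ → F) : ℕ → F × F
  | 0 => (0, 1)
  | i + 1 =>
    ((chn x e₁ e₂ e₃ i).1 + ((chn x e₁ e₂ e₃ i).2 - (chn x e₁ e₂ e₃ i).1)
        * ((e₃ i - x i) / (e₁ i - x i)),
      (chn x e₁ e₂ e₃ i).1 + ((chn x e₁ e₂ e₃ i).2 - (chn x e₁ e₂ e₃ i).1)
        * ((e₃ i - x i) / (e₂ i - x i)))

/-- The abscissa of the last point as a rational function of `x_0, …, x_n`. -/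
noncomputable def lastX {F : Type*} [Field F] (n : ℕ) (x e₁ e₂ e₃ : ℕ → F) : F :=
  (e₁ (n + 1) * ((chn x e₁ e₂ e₃ n).1 - (e₃ n - x n) / (e₁ n - x n))
    - e₂ (n + 1) * ((chn x e₁ e₂ e₃ n).2 - (e₃ n - x n) / (e₁ n - x n)))
    / ((chn x e₁ e₂ e₃ n).1 - (chn x e₁ e₂ e₃ n).2)

section tors

variable {I : Type} [Fintype I] [DecidableEq I] {P : I → Type*} [∀ i, AddCommGroup (P i)]
  {V : Type*} [AddCommGroup V] [Module ℚ V]

theorem altS_tors {f : (∀ i, P i) → V}
    (hN : ∀ (i : I) (Q : ∀ i, P i), f Q + f (Function.update Q i (-Q i))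
      = 2 • f (Function.update Q i 0)) {Q : ∀ i, P i} {i : I} (h : -Q i = Q i) :
    altS f Finset.univ Q = 0 := by
  have h1 : (Finset.univ : Finset I) = insert i (Finset.univ.erase i) :=
    (Finset.insert_erase (Finset.mem_univ i)).symm
  rw [h1, altS_insert f (Finset.notMem_erase i _)]
  unfold altS
  rw [← Finset.sum_sub_distrib]
  refine Finset.sum_eq_zero fun S hS => ?_
  have hiS : i ∉ S := fun h => (Finset.notMem_erase i _) (Finset.mem_powerset.1 hS h)
  have h2 : zeroS S (Function.update Q i 0) = Function.update (zeroS S Q) i 0 := by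
    funext l
    unfold zeroS
    by_cases hli : l = i
    · subst hli
      rw [Function.update_self, Finset.piecewise_eq_of_notMem _ _ _ hiS, Function.update_self]
    · rw [Function.update_of_ne hli]
      by_cases hl : l ∈ S
      · rw [Finset.piecewise_eq_of_mem _ _ _ hl, Finset.piecewise_eq_of_mem _ _ _ hl]
      · rw [Finset.piecewise_eq_of_notMem _ _ _ hl, Finset.piecewise_eq_of_notMem _ _ _ hl,
          Function.update_of_ne hli]
  have h3 : (zeroS S Q) i = Q i := Finset.piecewise_eq_of_notMem _ _ _ hiS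
  have h4 := hN i (zeroS S Q)
  rw [h3, h, ← h3, Function.update_eq_self, ← two_nsmul, ← h2] at h4
  have h5 : 2 • (f (zeroS S Q) - f (zeroS S (Function.update Q i 0))) = 0 := by
    rw [smul_sub, h4, sub_self]
  rw [← smul_sub, eq_zero_of_nsmul two_ne_zero h5, smul_zero]

end tors

section final

variable {k : Type*} [Field k] [CharZero k] [IsAlgClosed k] [DecidableEq k]

omit [CharZero k] [IsAlgClosed k] [DecidableEq k] in
theorem chn_ne {n : ℕ} {x e₁ e₂ e₃ : ℕ → k} (h1 : ∀ i < n, e₁ i - x i ≠ 0)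
    (h2 : ∀ i < n, e₂ i - x i ≠ 0) (h3 : ∀ i < n, e₃ i - x i ≠ 0) (h12 : ∀ i < n, e₁ i ≠ e₂ i) :
    ∀ j ≤ n, (chn x e₁ e₂ e₃ j).1 - (chn x e₁ e₂ e₃ j).2 ≠ 0 := by
  intro j
  induction j with
  | zero => intro _; simp [chn]
  | succ j ih =>
    intro hj
    have hjn : j < n := by omega
    have h := ih (by omega)
    have a1 := h1 j hjn
    have a2 := h2 j hjn
    have a3 := h3 j hjn
    have e : (chn x e₁ e₂ e₃ (j + 1)).1 - (chn x e₁ e₂ e₃ (j + 1)).2
        = ((chn x e₁ e₂ e₃ j).1 - (chn x e₁ e₂ e₃ j).2) * (e₃ j - x j) * (e₁ j - e₂ j)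
          / ((e₁ j - x j) * (e₂ j - x j)) := by
      simp only [chn]
      field_simp
      ring
    rw [e]
    exact div_ne_zero (mul_ne_zero (mul_ne_zero h a3) (sub_ne_zero.2 (h12 j hjn)))
      (mul_ne_zero a1 a2)

theorem hyp_final {n : ℕ} {A B : ℕ → k} [∀ i : Fin (n + 2), (Crv (A i) (B i)).IsElliptic]
    {e₁ e₂ e₃ : ℕ → k} (hR : ∀ i < n + 2, Roots (A i) (B i) (e₁ i) (e₂ i) (e₃ i))
    {x y : ℕ → k} (hP : ∀ i : Fin (n + 2), (Crv (A i) (B i)).Nonsingular (x i) (y i))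
    (hy : ∀ i ≤ n, y i ≠ 0) (hx : x (n + 1) = lastX n x e₁ e₂ e₃) :
    Msymb (A := fun i : Fin (n + 2) => A i) (B := fun i : Fin (n + 2) => B i)
      (fun i => (.some (x i) (y i) (hP i) : (Crv (A i) (B i)).Point)) = 0 := by
  by_cases hl : y (n + 1) = 0
  · -- the last point is 2-torsion
    rw [Msymb_eq]
    refine altS_tors Mcl_neg (i := Fin.last (n + 1)) ?_
    rw [gg_neg_some]
    refine gg_some_congr _ _ rfl ?_
    have : ((Fin.last (n + 1) : Fin (n + 2)) : ℕ) = n + 1 := Fin.val_last _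
    rw [this, hl, neg_zero]
  · have hne := fun i (hi : i < n + 1) => root_ne (hR i (by omega))
      (crv_nonsing.1 (hP ⟨i, by omega⟩)).1 (hy i (by omega))
    have h12 : ∀ i < n + 2, e₁ i ≠ e₂ i := by
      intro i hi
      have : (Crv (A i) (B i)).IsElliptic := inferInstanceAs
        (Crv (A ((⟨i, hi⟩ : Fin (n + 2)) : ℕ)) (B ((⟨i, hi⟩ : Fin (n + 2)) : ℕ))).IsElliptic
      exact (hR i hi).ne.1
    have hd := chn_ne (n := n) (x := x) (e₁ := e₁) (e₂ := e₂) (e₃ := e₃)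
      (fun i hi => (hne i (by omega)).1) (fun i hi => (hne i (by omega)).2.1)
      (fun i hi => (hne i (by omega)).2.2) (fun i hi => h12 i (by omega)) n le_rfl
    refine hyp_main (r := fun i => (chn x e₁ e₂ e₃ i).1) (s := fun i => (chn x e₁ e₂ e₃ i).2)
      (c := (e₃ n - x n) / (e₁ n - x n)) hR hP ?_ rfl rfl ?_ ?_ ?_ ?_
    · intro i hi
      rcases Nat.lt_or_ge i (n + 1) with h | h
      · exact hy i (by omega)
      · have : i = n + 1 := by omega
        rw [this]; exact hl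
    · intro i hi
      have a1 := (hne i (by omega)).1
      simp only [chn]
      field_simp
      ring
    · intro i hi
      have a2 := (hne i (by omega)).2.1
      simp only [chn]
      field_simp
      ring
    · exact mul_div_cancel₀ _ (hne n (by omega)).1
    · have h1 : x (n + 1) * ((chn x e₁ e₂ e₃ n).1 - (chn x e₁ e₂ e₃ n).2)
          = e₁ (n + 1) * ((chn x e₁ e₂ e₃ n).1 - (e₃ n - x n) / (e₁ n - x n))
            - e₂ (n + 1) * ((chn x e₁ e₂ e₃ n).2 - (e₃ n - x n) / (e₁ n - x n)) := by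
        rw [hx, lastX, div_mul_cancel₀ _ hd]
      linear_combination -h1

end final

end AlbCH
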