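import Pool.Agent.Lib.MP_2eeeac_ag.Hyp.HF

/-!
# The symbol is additive in each coordinate; division hulls
-/

namespace AlbCH

open WeierstrassCurve WeierstrassCurve.Affine Finset

section additive

variable {I : Type} [Fintype I] [DecidableEq I] {P : I → Type*} [∀ i, AddCommGroup (P i)]
  {V : Type*} [AddCommGroup V] [Module ℚ V]

omit [Fintype I] in
theorem zeroS_update_of_notMem {i : I} {S : Finset I} (hi : i ∉ S) (Q : ∀ i, P i) (a : P i) :
    zeroS S (Function.update Q i a) = Function.update (zeroS S Q) i a := by
  funext l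
  unfold zeroS
  by_cases hli : l = i
  · subst hli
    rw [Function.update_self, Finset.piecewise_eq_of_notMem _ _ _ hi, Function.update_self]
  · rw [Function.update_of_ne hli]
    by_cases hl : l ∈ S
    · rw [Finset.piecewise_eq_of_mem _ _ _ hl, Finset.piecewise_eq_of_mem _ _ _ hl]
    · rw [Finset.piecewise_eq_of_notMem _ _ _ hl, Finset.piecewise_eq_of_notMem _ _ _ hl,
        Function.update_of_ne hli]

omit [Module ℚ V] in
theorem altS_update_add {f : (∀ i, P i) → V}
    (hA : ∀ (i : I) (Q : ∀ i, P i) (a a' : P i), f (Function.update Q i (a + a'))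
      + f (Function.update Q i 0) = f (Function.update Q i a) + f (Function.update Q i a'))
    (Q : ∀ i, P i) (i : I) (a a' : P i) :
    altS f Finset.univ (Function.update Q i (a + a'))
      = altS f Finset.univ (Function.update Q i a)
        + altS f Finset.univ (Function.update Q i a') := by
  have h1 : (Finset.univ : Finset I) = insert i (Finset.univ.erase i) :=
    (Finset.insert_erase (Finset.mem_univ i)).symm
  rw [h1, altS_insert f (Finset.notMem_erase i _), altS_insert f (Finset.notMem_erase i _),
    altS_insert f (Finset.notMem_erase i _)]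
  simp only [Function.update_idem]
  unfold altS
  rw [← Finset.sum_sub_distrib, ← Finset.sum_sub_distrib, ← Finset.sum_sub_distrib,
    ← Finset.sum_add_distrib]
  refine Finset.sum_congr rfl fun S hS => ?_
  have hiS : i ∉ S := fun h => (Finset.notMem_erase i _) (Finset.mem_powerset.1 hS h)
  rw [zeroS_update_of_notMem hiS, zeroS_update_of_notMem hiS, zeroS_update_of_notMem hiS,
    zeroS_update_of_notMem hiS, ← smul_sub, ← smul_sub, ← smul_sub, ← smul_add]
  congr 1
  have h2 := hA i (zeroS S Q) a a'
  rw [sub_eq_iff_eq_add]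
  have h3 : f (Function.update (zeroS S Q) i (a + a'))
      = f (Function.update (zeroS S Q) i a) + f (Function.update (zeroS S Q) i a')
        - f (Function.update (zeroS S Q) i 0) := by
    rw [← h2]; abel
  rw [h3]; abel

theorem altS_div {f : (∀ i, P i) → V}
    (hA : ∀ (i : I) (Q : ∀ i, P i) (a a' : P i), f (Function.update Q i (a + a'))
      + f (Function.update Q i 0) = f (Function.update Q i a) + f (Function.update Q i a'))
    {Q b : ∀ i, P i} (hb : ∀ i, ∃ l m : ℤ, l ≠ 0 ∧ l • b i = m • Q i)
    (h : altS f Finset.univ Q = 0) (T : Finset I) :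
    altS f Finset.univ (T.piecewise b Q) = 0 := by
  induction T using Finset.induction_on with
  | empty => rw [Finset.piecewise_empty]; exact h
  | insert i T hi ih =>
    rw [Finset.piecewise_insert]
    let φ : P i →+ V := AddMonoidHom.mk'
      (fun a => altS f Finset.univ (Function.update (T.piecewise b Q) i a))
      (fun a a' => altS_update_add hA _ i a a')
    have h0 : φ (Q i) = 0 := by
      change altS f Finset.univ (Function.update (T.piecewise b Q) i (Q i)) = 0
      have : Q i = (T.piecewise b Q) i := (Finset.piecewise_eq_of_notMem _ _ _ hi).symm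
      rw [this, Function.update_eq_self]
      exact ih
    obtain ⟨l, m, hl, hlm⟩ := hb i
    have h1 : l • φ (b i) = 0 := by
      rw [← map_zsmul, hlm, map_zsmul, h0, smul_zero]
    change φ (b i) = 0
    rw [← Int.cast_smul_eq_zsmul ℚ] at h1
    exact (smul_eq_zero.1 h1).resolve_left (Int.cast_ne_zero.2 hl)

end additive

section symbol

variable {k : Type*} [Field k] [IsAlgClosed k] [DecidableEq k] {I : Type} [Fintype I]
  [DecidableEq I] {A B : I → k} [∀ i, (Crv (A i) (B i)).IsElliptic]

omit [Fintype I] in
theorem Mcl_add [Nontrivial I] (i : I) (Q : MPt A B) (a a' : (Crv (A i) (B i)).Point) :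
    Mcl (Function.update Q i (a + a')) + Mcl (Function.update Q i 0)
      = Mcl (Function.update Q i a) + Mcl (Function.update Q i a') := by
  obtain ⟨j, hj⟩ := exists_ne i
  obtain ⟨f, hf⟩ := exists_push (A := A) (B := B) i j hj.symm Q
  have h1 := congrArg f (cl_add_fst (Q j) a a')
  rw [map_add, map_add, hf, hf, hf, hf] at h1
  have h0 : ∀ x : (Crv (A i) (B i)).Point,
      Function.update (Function.update Q i x) j (Q j) = Function.update Q i x := by
    intro x
    symm
    rw [Function.eq_update_iff]
    exact ⟨by rw [Function.update_of_ne hj], fun _ _ => rfl⟩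
  rw [h0, h0, h0, h0] at h1
  exact h1

end symbol

section final

variable {k : Type*} [Field k] [CharZero k] [IsAlgClosed k] [DecidableEq k]

/-- The final form: the points `b_i` are in the division hulls of the groups `ℤ a_i`. -/
theorem hyp_result {n : ℕ} {A B : ℕ → k} [∀ i : Fin (n + 2), (Crv (A i) (B i)).IsElliptic]
    {e₁ e₂ e₃ : ℕ → k} (hR : ∀ i < n + 2, Roots (A i) (B i) (e₁ i) (e₂ i) (e₃ i))
    {x y : ℕ → k} (hP : ∀ i : Fin (n + 2), (Crv (A i) (B i)).Nonsingular (x i) (y i))
    (hx : x (n + 1) = lastX n x e₁ e₂ e₃)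
    (b : MPt (fun i : Fin (n + 2) => A i) (fun i : Fin (n + 2) => B i))
    (hb : ∀ i, ∃ l m : ℤ, l ≠ 0 ∧ l • b i = m • (.some (x i) (y i) (hP i) :
      (Crv (A i) (B i)).Point)) :
    Msymb b = 0 := by
  have h0 : Msymb (A := fun i : Fin (n + 2) => A i) (B := fun i : Fin (n + 2) => B i)
      (fun i => (.some (x i) (y i) (hP i) : (Crv (A i) (B i)).Point)) = 0 := by
    by_cases hy : ∀ i ≤ n, y i ≠ 0
    · exact hyp_final hR hP hy hx
    · push Not at hy
      obtain ⟨i, hi, hyi⟩ := hy
      rw [Msymb_eq]
      refine altS_tors Mcl_neg (i := (⟨i, by omega⟩ : Fin (n + 2))) ?_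
      rw [gg_neg_some]
      refine gg_some_congr _ _ rfl ?_
      change -y i = y i
      rw [hyi, neg_zero]
  rw [Msymb_eq] at h0 ⊢
  have h1 := altS_div (f := Mcl (A := fun i : Fin (n + 2) => A i)
    (B := fun i : Fin (n + 2) => B i)) (fun i Q a a' => Mcl_add i Q a a') (b := b) hb h0
    Finset.univ
  rwa [Finset.piecewise_univ] at h1

end final

end AlbCH
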