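import Pool.Agent.Lib.MP_2eeeac_ag.Hyp.HG

/-!
# The points of the quotient by the even sign changes
-/

namespace AlbCH

open WeierstrassCurve WeierstrassCurve.Affine Finset

section even

variable {I : Type} [Fintype I] [DecidableEq I] {P : I → Type*} [∀ i, AddCommGroup (P i)]
  {V : Type*} [AddCommGroup V] [Module ℚ V]

theorem even_sum {f : (∀ i, P i) → V}
    (hN : ∀ (i : I) (Q : ∀ i, P i), f Q + f (Function.update Q i (-Q i))
      = 2 • f (Function.update Q i 0)) {Q : ∀ i, P i} {m : ℕ} (hm : Fintype.card I = m + 1)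
    (h : altS f Finset.univ Q = 0) :
    ∑ S : Finset I with Even S.card, f (S.piecewise (-Q) Q) = 2 ^ m • f 0 := by
  have h1 := sum_all hN Finset.univ Q
  have h2 := sum_sgn hN Finset.univ Q
  have h0 : zeroS Finset.univ Q = 0 := by
    unfold zeroS; rw [Finset.piecewise_univ]
  rw [h0] at h1
  rw [Finset.card_univ, hm] at h1 h2
  rw [h, smul_zero] at h2
  have h3 : 2 • ∑ S ∈ (Finset.univ : Finset I).powerset with Even S.card, f (negS S Q)
      = 2 ^ (m + 1) • f 0 := by
    rw [← h1, ← add_zero (∑ S ∈ (Finset.univ : Finset I).powerset, f (negS S Q)), ← h2,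
      ← Finset.sum_add_distrib, Finset.sum_filter, Finset.smul_sum]
    refine Finset.sum_congr rfl fun S _ => ?_
    by_cases hS : Even S.card
    · rw [if_pos hS, hS.neg_one_pow, one_smul, two_nsmul]
    · rw [if_neg hS, (Nat.not_even_iff_odd.1 hS).neg_one_pow, neg_smul, one_smul, smul_zero,
        add_neg_cancel]
  rw [Finset.powerset_univ, pow_succ, mul_comm, mul_smul] at h3
  have h4 : 2 • (∑ S : Finset I with Even S.card, f (negS S Q) - 2 ^ m • f 0) = 0 := by
    rw [smul_sub, h3, sub_self]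
  have h5 := eq_zero_of_nsmul two_ne_zero h4
  rw [sub_eq_zero] at h5
  exact h5

end even

section final

variable {k : Type*} [Field k] [CharZero k] [IsAlgClosed k] [DecidableEq k]

/-- The final form, with the consequence for the sums over the even sign changes. -/
theorem hyp_result' {n : ℕ} {A B : ℕ → k} [∀ i : Fin (n + 2), (Crv (A i) (B i)).IsElliptic]
    {e₁ e₂ e₃ : ℕ → k} (hR : ∀ i < n + 2, Roots (A i) (B i) (e₁ i) (e₂ i) (e₃ i))
    {x y : ℕ → k} (hP : ∀ i : Fin (n + 2), (Crv (A i) (B i)).Nonsingular (x i) (y i))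
    (hx : x (n + 1) = lastX n x e₁ e₂ e₃)
    (b : MPt (fun i : Fin (n + 2) => A i) (fun i : Fin (n + 2) => B i))
    (hb : ∀ i, ∃ l m : ℤ, l ≠ 0 ∧ l • b i = m • (.some (x i) (y i) (hP i) :
      (Crv (A i) (B i)).Point)) :
    Msymb b = 0 ∧ ∑ S : Finset (Fin (n + 2)) with Even S.card, Mcl (S.piecewise (-b) b)
      = 2 ^ (n + 1) • Mcl (0 : MPt (fun i : Fin (n + 2) => A i) (fun i : Fin (n + 2) => B i)) := by
  have h := hyp_result hR hP hx b hb
  refine ⟨h, ?_⟩
  rw [Msymb_eq] at h
  exact even_sum (f := Mcl (A := fun i : Fin (n + 2) => A i)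
    (B := fun i : Fin (n + 2) => B i)) Mcl_neg (by rw [Fintype.card_fin]) h

end final

end AlbCH
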