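import Pool.Agent.Lib.MP_2eeeac_ag.Hyp.HH
import Mathlib.Algebra.Polynomial.Roots
import Mathlib.Data.Set.Card

/-!
# The equation of the hypersurface depends on every coordinate

For fixed `x_i`, `i ≠ j`, at most two values of `x_j` satisfy the equation of the hypersurface.
-/

namespace AlbCH

section dep

variable {F : Type*} [Field F]

/-- the affine map `w ↦ r_i + (s_i - r_i) w` -/
noncomputable def chL (x e₁ e₂ e₃ : ℕ → F) (i : ℕ) (w : F) : F :=
  (chn x e₁ e₂ e₃ i).1 + ((chn x e₁ e₂ e₃ i).2 - (chn x e₁ e₂ e₃ i).1) * w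

/-- the affine map with values `(e₃ - t) / (e₁ - t)` at `0` and `(e₃ - t) / (e₂ - t)` at `1` -/
noncomputable def chM (f₁ f₂ f₃ t w : F) : F :=
  (1 - w) * ((f₃ - t) / (f₁ - t)) + w * ((f₃ - t) / (f₂ - t))

theorem chL_succ (x e₁ e₂ e₃ : ℕ → F) (i : ℕ) (w : F) :
    chL x e₁ e₂ e₃ (i + 1) w = chL x e₁ e₂ e₃ i (chM (e₁ i) (e₂ i) (e₃ i) (x i) w) := by
  simp only [chL, chM, chn]
  ring

theorem chn_congr {x x' e₁ e₂ e₃ : ℕ → F} (j : ℕ) (h : ∀ i < j, x i = x' i) :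
    chn x e₁ e₂ e₃ j = chn x' e₁ e₂ e₃ j := by
  induction j with
  | zero => rfl
  | succ j ih =>
    have h1 := ih fun i hi => h i (by omega)
    simp only [chn]
    rw [h1, h j (by omega)]

theorem chL_pull (x e₁ e₂ e₃ : ℕ → F) (j k : ℕ) (w : F) :
    ∃ z : F, ∀ t : F, chL (Function.update x j t) e₁ e₂ e₃ (j + 1 + k) w
      = chL (Function.update x j t) e₁ e₂ e₃ (j + 1) z := by
  induction k generalizing w with
  | zero => exact ⟨w, fun t => rfl⟩
  | succ k ih =>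
    obtain ⟨z, hz⟩ := ih (chM (e₁ (j + 1 + k)) (e₂ (j + 1 + k)) (e₃ (j + 1 + k))
      (x (j + 1 + k)) w)
    refine ⟨z, fun t => ?_⟩
    rw [← hz t, ← add_assoc, chL_succ, Function.update_of_ne (by omega)]

theorem lastX_iff {n : ℕ} {x e₁ e₂ e₃ : ℕ → F} {v : F}
    (hd : (chn x e₁ e₂ e₃ n).1 - (chn x e₁ e₂ e₃ n).2 ≠ 0) (h12 : e₁ (n + 1) ≠ e₂ (n + 1)) :
    lastX n x e₁ e₂ e₃ = v ↔ chL x e₁ e₂ e₃ n ((v - e₂ (n + 1)) / (e₁ (n + 1) - e₂ (n + 1)))
      = (e₃ n - x n) / (e₁ n - x n) := by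
  have h2 : e₁ (n + 1) - e₂ (n + 1) ≠ 0 := sub_ne_zero.2 h12
  unfold lastX chL
  generalize (e₃ n - x n) / (e₁ n - x n) = c
  rw [div_eq_iff hd]
  constructor
  · intro h
    rw [mul_div_assoc', ← eq_sub_iff_add_eq', div_eq_iff h2]
    linear_combination h
  · intro h
    rw [mul_div_assoc', ← eq_sub_iff_add_eq', div_eq_iff h2] at h
    linear_combination h

open Polynomial in
theorem chM_card {f₁ f₂ f₃ : F} (h12 : f₁ ≠ f₂) (h13 : f₁ ≠ f₃) (h23 : f₂ ≠ f₃) (z w : F) :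
    {t : F | t ≠ f₁ ∧ t ≠ f₂ ∧ chM f₁ f₂ f₃ t z = w}.encard ≤ 2 := by
  classical
  set P : F[X] := C ((1 - z) + z - w) * X ^ 2
    + C (-(1 - z) * (f₂ + f₃) - z * (f₁ + f₃) + w * (f₁ + f₂)) * X
    + C ((1 - z) * (f₂ * f₃) + z * (f₁ * f₃) - w * (f₁ * f₂)) with hP
  have hev : ∀ t, P.eval t = (f₃ - t) * ((1 - z) * (f₂ - t) + z * (f₁ - t))
      - w * ((f₁ - t) * (f₂ - t)) := by
    intro t
    rw [hP]
    simp only [eval_add, eval_mul, eval_C, eval_pow, eval_X]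
    ring
  have hP0 : P ≠ 0 := by
    intro h
    have h1 := hev f₁
    have h2 := hev f₂
    rw [h, eval_zero] at h1 h2
    have h3 : (1 - z) * ((f₃ - f₁) * (f₂ - f₁)) = 0 := by linear_combination -h1
    have h4 : z * ((f₃ - f₂) * (f₁ - f₂)) = 0 := by linear_combination -h2
    have h5 : 1 - z = 0 := (mul_eq_zero.1 h3).resolve_right
      (mul_ne_zero (sub_ne_zero.2 h13.symm) (sub_ne_zero.2 h12.symm))
    have h6 : z = 0 := (mul_eq_zero.1 h4).resolve_right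
      (mul_ne_zero (sub_ne_zero.2 h23.symm) (sub_ne_zero.2 h12))
    rw [h6, sub_zero] at h5
    exact one_ne_zero h5
  have hsub : {t : F | t ≠ f₁ ∧ t ≠ f₂ ∧ chM f₁ f₂ f₃ t z = w} ⊆ (P.roots.toFinset : Set F) := by
    rintro t ⟨h1, h2, h3⟩
    rw [Finset.mem_coe, Multiset.mem_toFinset, mem_roots hP0, IsRoot.def, hev]
    have a1 : f₁ - t ≠ 0 := sub_ne_zero.2 (Ne.symm h1)
    have a2 : f₂ - t ≠ 0 := sub_ne_zero.2 (Ne.symm h2)
    rw [← h3, chM]
    field_simp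
    ring
  refine (Set.encard_le_encard hsub).trans ?_
  rw [Set.encard_coe_eq_coe_finsetCard]
  have h7 : P.roots.toFinset.card ≤ 2 :=
    (Multiset.toFinset_card_le _).trans ((card_roots' P).trans natDegree_quadratic_le)
  exact_mod_cast h7

theorem lastX_card {n j : ℕ} (hj : j ≤ n) {x e₁ e₂ e₃ : ℕ → F}
    (hx : ∀ i ≤ n, i ≠ j → x i ≠ e₁ i ∧ x i ≠ e₂ i ∧ x i ≠ e₃ i)
    (he : ∀ i ≤ n + 1, e₁ i ≠ e₂ i ∧ e₁ i ≠ e₃ i ∧ e₂ i ≠ e₃ i) (v : F) :
    {t : F | t ≠ e₁ j ∧ t ≠ e₂ j ∧ t ≠ e₃ j ∧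
      lastX n (Function.update x j t) e₁ e₂ e₃ = v}.encard ≤ 2 := by
  obtain ⟨h12, h13, h23⟩ := he j (by omega)
  -- the pair `(r_j, s_j)` does not depend on `t`
  have hcg : ∀ t : F, chn (Function.update x j t) e₁ e₂ e₃ j = chn x e₁ e₂ e₃ j := fun t =>
    chn_congr j fun i hi => Function.update_of_ne (by omega) _ _
  have hLj : ∀ t w : F, chL (Function.update x j t) e₁ e₂ e₃ j w = chL x e₁ e₂ e₃ j w := by
    intro t w
    unfold chL
    rw [hcg t]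
  have hdj : (chn x e₁ e₂ e₃ j).2 - (chn x e₁ e₂ e₃ j).1 ≠ 0 := by
    have := chn_ne (n := j) (x := x) (e₁ := e₁) (e₂ := e₂) (e₃ := e₃)
      (fun i hi => sub_ne_zero.2 (hx i (by omega) (by omega)).1.symm)
      (fun i hi => sub_ne_zero.2 (hx i (by omega) (by omega)).2.1.symm)
      (fun i hi => sub_ne_zero.2 (hx i (by omega) (by omega)).2.2.symm)
      (fun i hi => (he i (by omega)).1) j le_rfl
    intro h
    apply this
    rw [← neg_sub, h, neg_zero]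
  have hiff : ∀ t : F, t ≠ e₁ j → t ≠ e₂ j → t ≠ e₃ j →
      lastX n (Function.update x j t) e₁ e₂ e₃ = v →
      chL (Function.update x j t) e₁ e₂ e₃ n ((v - e₂ (n + 1)) / (e₁ (n + 1) - e₂ (n + 1)))
        = (e₃ n - (Function.update x j t) n) / (e₁ n - (Function.update x j t) n) := by
    intro t h1 h2 h3 h
    have hxt : ∀ i < n, (Function.update x j t) i ≠ e₁ i ∧ (Function.update x j t) i ≠ e₂ i ∧
        (Function.update x j t) i ≠ e₃ i := by
      intro i hi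
      by_cases hij : i = j
      · subst hij
        rw [Function.update_self]
        exact ⟨h1, h2, h3⟩
      · rw [Function.update_of_ne hij]
        exact hx i (by omega) hij
    refine (lastX_iff ?_ (he (n + 1) le_rfl).1).1 h
    exact chn_ne (fun i hi => sub_ne_zero.2 (hxt i hi).1.symm)
      (fun i hi => sub_ne_zero.2 (hxt i hi).2.1.symm)
      (fun i hi => sub_ne_zero.2 (hxt i hi).2.2.symm) (fun i hi => (he i (by omega)).1) n le_rfl
  rcases Nat.lt_or_ge j n with hjn | hjn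
  · obtain ⟨k, rfl⟩ : ∃ k, n = j + 1 + k := ⟨n - (j + 1), by omega⟩
    obtain ⟨z, hz⟩ := chL_pull x e₁ e₂ e₃ j k
      ((v - e₂ (j + 1 + k + 1)) / (e₁ (j + 1 + k + 1) - e₂ (j + 1 + k + 1)))
    refine (Set.encard_le_encard ?_).trans (chM_card h12 h13 h23 z
      (((e₃ (j + 1 + k) - x (j + 1 + k)) / (e₁ (j + 1 + k) - x (j + 1 + k))
        - (chn x e₁ e₂ e₃ j).1) / ((chn x e₁ e₂ e₃ j).2 - (chn x e₁ e₂ e₃ j).1)))
    rintro t ⟨h1, h2, h3, h4⟩
    refine ⟨h1, h2, ?_⟩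
    have h5 := hiff t h1 h2 h3 h4
    rw [hz t, chL_succ, hLj, Function.update_self, Function.update_of_ne (by omega)] at h5
    rw [eq_div_iff hdj, ← h5]
    unfold chL
    ring
  · have hjn' : j = n := by omega
    subst hjn'
    refine (Set.encard_le_encard ?_).trans (chM_card h12 h13 h23 0
      (chL x e₁ e₂ e₃ j ((v - e₂ (j + 1)) / (e₁ (j + 1) - e₂ (j + 1)))))
    rintro t ⟨h1, h2, h3, h4⟩
    refine ⟨h1, h2, ?_⟩
    have h5 := hiff t h1 h2 h3 h4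
    rw [hLj, Function.update_self] at h5
    rw [h5, chM]
    ring

end dep

end AlbCH
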